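import Mathlib
import Pool.Agent.H266R3.LDef

set_option autoImplicit false

/-!
Definitions: small ball property, strong norm attainment, polyhedral spaces.
-/

namespace Q99.SB

open Pool.Agent.H266R3.LF

/-- The small ball property: for every `ε₀ > 0` the space is the union of a sequence of closed balls
with radii smaller than `ε₀` and tending to zero. -/
def SmallBall (M : Type) [MetricSpace M] : Prop :=
  ∀ ε₀ : ℝ, 0 < ε₀ → ∃ (x : ℕ → M) (r : ℕ → ℝ), (∀ n, 0 < r n ∧ r n < ε₀) ∧
    Filter.Tendsto r Filter.atTop (nhds 0) ∧ ⋃ n, Metric.closedBall (x n) (r n) = Set.univ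

/-- `f` attains its norm strongly. -/
def AttainsStrongly {M : Type} [MetricSpace M] {o : M} (f : Lip0 M o) : Prop :=
  ∃ x y : M, x ≠ y ∧ ‖f‖ = |f.fn x - f.fn y| / dist x y

/-- A normed space is polyhedral if the closed unit ball of each of its finite-dimensional
subspaces is a polytope, i.e. the convex hull of a finite set. -/
def Polyhedral (P : Type) [NormedAddCommGroup P] [NormedSpace ℝ P] : Prop :=
  ∀ E : Submodule ℝ P, FiniteDimensional ℝ E →
    ∃ S : Set P, S.Finite ∧ convexHull ℝ S = {x : P | x ∈ E ∧ ‖x‖ ≤ 1}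

/-- A normed space is isomorphically polyhedral if it is linearly homeomorphic to a polyhedral
normed space. -/
def IsoPolyhedral (Y : Type) [NormedAddCommGroup Y] [NormedSpace ℝ Y] : Prop :=
  ∃ (P : Type) (_ : NormedAddCommGroup P) (_ : NormedSpace ℝ P),
    Polyhedral P ∧ Nonempty (Y ≃L[ℝ] P)

end Q99.SB
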