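import Mathlib
import Pool.Agent.Q99.SB.Defs

set_option autoImplicit false

/-!
Every separable normed space is the sum of two sets with the small ball property.
-/

namespace Q99.SB

open Set Topology Filter

variable {H : Type} [NormedAddCommGroup H]

/-- The small ball property of a subset, with centers in the ambient space. -/
def Cov (S : Set H) : Prop :=
  ∀ ε₀ : ℝ, 0 < ε₀ → ∃ (c : ℕ → H) (r : ℕ → ℝ), (∀ n, 0 < r n ∧ r n < ε₀) ∧
    Tendsto r atTop (𝓝 0) ∧ ∀ x ∈ S, ∃ n, ‖x - c n‖ ≤ r n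

lemma tendsto_half : Tendsto (fun n : ℕ => n / 2) atTop atTop :=
  tendsto_atTop_atTop.2 fun b => ⟨2 * b, fun a ha => by omega⟩

lemma Cov.union {S S' : Set H} (h : Cov S) (h' : Cov S') : Cov (S ∪ S') := by
  intro ε₀ hε₀
  obtain ⟨c, r, hr, hrt, hc⟩ := h ε₀ hε₀
  obtain ⟨c', r', hr', hrt', hc'⟩ := h' ε₀ hε₀
  refine ⟨fun n => if n % 2 = 0 then c (n / 2) else c' (n / 2),
    fun n => if n % 2 = 0 then r (n / 2) else r' (n / 2), fun n => ?_, ?_, ?_⟩
  · by_cases hn : n % 2 = 0
    · simp only [if_pos hn]; exact hr _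
    · simp only [if_neg hn]; exact hr' _
  · have h1 : Tendsto (fun n : ℕ => r (n / 2) + r' (n / 2)) atTop (𝓝 (0 + 0)) :=
      (hrt.comp tendsto_half).add (hrt'.comp tendsto_half)
    rw [add_zero] at h1
    refine squeeze_zero (fun n => ?_) (fun n => ?_) h1
    · by_cases hn : n % 2 = 0
      · simp only [if_pos hn]; exact (hr _).1.le
      · simp only [if_neg hn]; exact (hr' _).1.le
    · by_cases hn : n % 2 = 0
      · simp only [if_pos hn]; linarith [(hr' (n / 2)).1]
      · simp only [if_neg hn]; linarith [(hr (n / 2)).1]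
  · rintro x (hx | hx)
    · obtain ⟨n, hn⟩ := hc x hx
      refine ⟨2 * n, ?_⟩
      have e1 : (2 * n) % 2 = 0 := by omega
      have e2 : (2 * n) / 2 = n := by omega
      simp only [e1, e2, if_true]
      exact hn
    · obtain ⟨n, hn⟩ := hc' x hx
      refine ⟨2 * n + 1, ?_⟩
      have e1 : ¬ (2 * n + 1) % 2 = 0 := by omega
      have e2 : (2 * n + 1) / 2 = n := by omega
      simp only [e1, e2, if_false]
      exact hn

lemma Cov.neg {S : Set H} (h : Cov S) : Cov {x | -x ∈ S} := by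
  intro ε₀ hε₀
  obtain ⟨c, r, hr, hrt, hc⟩ := h ε₀ hε₀
  refine ⟨fun n => -c n, r, hr, hrt, fun x hx => ?_⟩
  obtain ⟨n, hn⟩ := hc (-x) hx
  refine ⟨n, ?_⟩
  have : x - -c n = -(-x - c n) := by abel
  rw [this, norm_neg]
  exact hn

/-- Subsets with the small ball property, as metric spaces. -/
lemma smallBall_of_cov {S : Set H} (h : Cov S) (hne : S.Nonempty) : SmallBall S := by
  classical
  intro ε₀ hε₀
  obtain ⟨c, r, hr, hrt, hc⟩ := h (ε₀ / 2) (by positivity)
  obtain ⟨o, ho⟩ := hne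
  let m : ℕ → S := fun n => if h : ∃ x : S, ‖(x : H) - c n‖ ≤ r n then h.choose else ⟨o, ho⟩
  refine ⟨m, fun n => 2 * r n, fun n => ⟨by linarith [(hr n).1], by linarith [(hr n).2]⟩, ?_, ?_⟩
  · have := hrt.const_mul 2
    rwa [mul_zero] at this
  · refine eq_univ_of_forall fun x => ?_
    obtain ⟨n, hn⟩ := hc x x.2
    rw [mem_iUnion]
    refine ⟨n, ?_⟩
    have hex : ∃ x : S, ‖(x : H) - c n‖ ≤ r n := ⟨x, hn⟩
    have hm : m n = hex.choose := dif_pos hex
    have hm2 : ‖(m n : H) - c n‖ ≤ r n := by rw [hm]; exact hex.choose_spec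
    rw [Metric.mem_closedBall, Subtype.dist_eq, dist_eq_norm]
    have e : (x : H) - m n = ((x : H) - c n) - ((m n : H) - c n) := by abel
    rw [e]
    refine (norm_sub_le _ _).trans ?_
    linarith

section Seq

variable [CompleteSpace H] [TopologicalSpace.SeparableSpace H]

/-- A dense sequence. -/
noncomputable def dd (H : Type) [NormedAddCommGroup H] [TopologicalSpace.SeparableSpace H] :
    ℕ → H := TopologicalSpace.denseSeq H

/-- The weights. -/
noncomputable def wt (k : ℕ → ℕ) (n : ℕ) : ℝ := (1 / 2) ^ (∑ j ∈ Finset.range n, (k j + 1))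

lemma wt_pos (k : ℕ → ℕ) (n : ℕ) : 0 < wt k n := by unfold wt; positivity

lemma wt_add (k : ℕ → ℕ) (n i : ℕ) : wt k (i + n) ≤ wt k n * (1 / 2) ^ i := by
  induction i with
  | zero => simp
  | succ i ih =>
    have h1 : wt k (i + 1 + n) = wt k (i + n) * (1 / 2) ^ (k (i + n) + 1) := by
      unfold wt
      rw [show i + 1 + n = (i + n) + 1 by omega, Finset.sum_range_succ, pow_add]
    rw [h1]
    have h2 : (1 / 2 : ℝ) ^ (k (i + n) + 1) ≤ 1 / 2 := by
      rw [pow_succ]
      have : (1 / 2 : ℝ) ^ k (i + n) ≤ 1 := pow_le_one₀ (by norm_num) (by norm_num)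
      linarith
    calc wt k (i + n) * (1 / 2) ^ (k (i + n) + 1) ≤ (wt k n * (1 / 2) ^ i) * (1 / 2) :=
          mul_le_mul ih h2 (by positivity) (mul_nonneg (wt_pos k n).le (by positivity))
      _ = _ := by rw [pow_succ]; ring

lemma wt_le (k : ℕ → ℕ) (i : ℕ) : wt k i ≤ (1 / 2) ^ i := by
  have h := wt_add k 0 i
  have h0 : wt k 0 = 1 := by unfold wt; simp
  rw [h0, one_mul, add_zero] at h
  exact h

/-- Admissible sequences of indices. -/
def Adm (H : Type) [NormedAddCommGroup H] [TopologicalSpace.SeparableSpace H] (k : ℕ → ℕ) : Prop :=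
  ∀ i, ‖dd H (k (i + 1))‖ ≤ 2 * wt k i

/-- The terms of given parity. -/
noncomputable def term (H : Type) [NormedAddCommGroup H] [TopologicalSpace.SeparableSpace H]
    (k : ℕ → ℕ) (p i : ℕ) : H := if i % 2 = p then dd H (k i) else 0

omit [CompleteSpace H] in
lemma norm_term_le {k : ℕ → ℕ} (hk : Adm H k) (p i : ℕ) : ‖term H k p (i + 1)‖ ≤ 2 * wt k i := by
  unfold term
  split_ifs
  · exact hk i
  · rw [norm_zero]; have := wt_pos k i; positivity

lemma summable_term {k : ℕ → ℕ} (hk : Adm H k) (p : ℕ) : Summable (term H k p) := by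
  rw [← summable_nat_add_iff 1]
  refine Summable.of_norm_bounded (g := fun i => 2 * (1 / 2 : ℝ) ^ i) ?_ fun i => ?_
  · exact (summable_geometric_of_lt_one (by norm_num) (by norm_num)).mul_left 2
  · exact (norm_term_le hk p i).trans (by linarith [wt_le k i])

/-- The sum of the terms of parity `p`. -/
noncomputable def Sp (H : Type) [NormedAddCommGroup H] [TopologicalSpace.SeparableSpace H]
    (k : ℕ → ℕ) (p : ℕ) : H := ∑' i, term H k p i

lemma tail_le {k : ℕ → ℕ} (hk : Adm H k) {p N : ℕ} (hp : N % 2 ≠ p) :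
    ‖Sp H k p - ∑ i ∈ Finset.range N, term H k p i‖ ≤ 4 * wt k N := by
  have h1 := (summable_term hk p).sum_add_tsum_nat_add (N + 1)
  have h0 : term H k p N = 0 := by unfold term; rw [if_neg hp]
  rw [Finset.sum_range_succ, h0, add_zero] at h1
  have h2 : Sp H k p - ∑ i ∈ Finset.range N, term H k p i = ∑' i, term H k p (i + (N + 1)) := by
    unfold Sp
    rw [← h1]; abel
  rw [h2]
  have h3 : ∀ i, ‖term H k p (i + (N + 1))‖ ≤ 2 * wt k N * (1 / 2) ^ i := by
    intro i
    rw [← add_assoc]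
    refine (norm_term_le hk p (i + N)).trans ?_
    have := wt_add k N i
    linarith
  have h4 : HasSum (fun i : ℕ => 2 * wt k N * (1 / 2 : ℝ) ^ i) (2 * wt k N * 2) :=
    hasSum_geometric_two.mul_left _
  refine (tsum_of_norm_bounded h4 h3).trans ?_
  linarith

/-- The set of sums of the terms of parity `p`. -/
def Ap (H : Type) [NormedAddCommGroup H] [TopologicalSpace.SeparableSpace H] (p : ℕ) : Set H :=
  {x | ∃ k, Adm H k ∧ x = Sp H k p}

lemma cov_Ap (p : ℕ) (hp : p < 2) : Cov (Ap H p) := by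
  intro ε₀ hε₀
  obtain ⟨m, hm⟩ := exists_pow_lt_of_lt_one (show (0 : ℝ) < ε₀ / 4 by positivity)
    (show (1 / 2 : ℝ) < 1 by norm_num)
  -- `N` of the right parity
  obtain ⟨N, hN1, hN2, hN3⟩ : ∃ N, m ≤ N ∧ N % 2 ≠ p ∧ 0 < N :=
    ⟨2 * m + 2 + (1 - p), by omega, by omega, by omega⟩
  have : Nonempty (Fin N) := ⟨⟨0, hN3⟩⟩
  obtain ⟨hden⟩ := nonempty_denumerable (Fin N → ℕ)
  let e : ℕ ≃ (Fin N → ℕ) := (Denumerable.eqv (Fin N → ℕ)).symm
  let w : (Fin N → ℕ) → ℝ := fun κ => (1 / 2) ^ (∑ j, (κ j + 1))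
  have hcof : Tendsto (fun κ : Fin N → ℕ => ∑ j, (κ j + 1)) cofinite atTop := by
    refine tendsto_atTop.2 fun K => ?_
    rw [eventually_cofinite]
    refine (Set.Finite.pi (t := fun _ : Fin N => Iic K) fun _ => Set.finite_Iic K).subset ?_
    intro κ hκ
    have hκ' : ¬ K ≤ ∑ j, (κ j + 1) := hκ
    rw [mem_univ_pi]
    intro j
    rw [mem_Iic]
    have h1 : κ j + 1 ≤ ∑ j, (κ j + 1) :=
      Finset.single_le_sum (f := fun j => κ j + 1) (fun _ _ => Nat.zero_le _) (Finset.mem_univ j)
    omega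
  have hw : Tendsto (fun n => 4 * w (e n)) atTop (𝓝 0) := by
    have h1 : Tendsto (fun n => ∑ j, (e n j + 1)) atTop atTop := by
      rw [← Nat.cofinite_eq_atTop]
      rw [← Nat.cofinite_eq_atTop] at hcof
      have := hcof.comp e.injective.tendsto_cofinite
      exact this
    have h2 := (tendsto_pow_atTop_nhds_zero_of_lt_one (r := (1 / 2 : ℝ)) (by norm_num)
      (by norm_num)).comp h1
    have h3 := h2.const_mul 4
    rw [mul_zero] at h3
    exact h3
  refine ⟨fun n => ∑ i : Fin N, (if (i : ℕ) % 2 = p then dd H (e n i) else 0),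
    fun n => 4 * w (e n), fun n => ⟨by simp only [w]; positivity, ?_⟩, hw, ?_⟩
  · have h1 : N ≤ ∑ j, (e n j + 1) := by
      calc N = ∑ _j : Fin N, 1 := by simp
        _ ≤ _ := Finset.sum_le_sum fun j _ => by omega
    have h2 : w (e n) ≤ (1 / 2) ^ m :=
      pow_le_pow_of_le_one (by norm_num) (by norm_num) (hN1.trans h1)
    linarith
  · rintro x ⟨k, hk, rfl⟩
    refine ⟨e.symm fun i => k i, ?_⟩
    simp only [e.apply_symm_apply]
    have h1 := tail_le (H := H) hk hN2
    have h2 : ∑ i ∈ Finset.range N, term H k p i =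
        ∑ i : Fin N, (if (i : ℕ) % 2 = p then dd H (k i) else 0) := by
      rw [← Fin.sum_univ_eq_sum_range]
      rfl
    have h3 : wt k N = w fun i => k i := by
      simp only [w]
      unfold wt
      rw [← Fin.sum_univ_eq_sum_range (fun i => k i + 1)]
    rw [h2, h3] at h1
    exact h1

open Classical in
/-- Choice of a good approximation. -/
noncomputable def pick (r : H) (e : ℝ) : ℕ := if h : ∃ k, ‖r - dd H k‖ < e then h.choose else 0

omit [CompleteSpace H] in
lemma pick_spec (r : H) {e : ℝ} (he : 0 < e) : ‖r - dd H (pick r e)‖ < e := by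
  have h : ∃ k, ‖r - dd H k‖ < e := by
    obtain ⟨k, hk⟩ := (TopologicalSpace.denseRange_denseSeq H).exists_dist_lt r he
    exact ⟨k, by rw [← dist_eq_norm]; exact hk⟩
  unfold pick
  rw [dif_pos h]
  exact h.choose_spec

/-- The states of the recursion. -/
noncomputable def stt (u : H) : ℕ → H × ℝ
  | 0 => (u, 1)
  | n + 1 => ((stt u n).1 - dd H (pick (stt u n).1 (stt u n).2),
      (stt u n).2 * (1 / 2) ^ (pick (stt u n).1 (stt u n).2 + 1))

/-- Every vector is the sum of an admissible sequence. -/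
lemma exists_adm (u : H) : ∃ k, Adm H k ∧ u = Sp H k 0 + Sp H k 1 := by
  let k : ℕ → ℕ := fun n => pick (stt u n).1 (stt u n).2
  have h2 : ∀ n, (stt u n).2 = wt k n := by
    intro n
    induction n with
    | zero => unfold wt; simp [stt]
    | succ n ih =>
      change (stt u n).2 * (1 / 2) ^ (k n + 1) = _
      rw [ih]
      unfold wt
      rw [Finset.sum_range_succ, pow_add _ (∑ j ∈ Finset.range n, (k j + 1))]
  have h1 : ∀ n, ‖(stt u (n + 1)).1‖ < wt k n := by
    intro n
    rw [← h2]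
    exact pick_spec _ (by rw [h2]; exact wt_pos k n)
  have h3 : ∀ n, (stt u (n + 1)).1 = (stt u n).1 - dd H (k n) := fun n => rfl
  have hadm : Adm H k := by
    intro i
    have e : dd H (k (i + 1)) = (stt u (i + 1)).1 - (stt u (i + 2)).1 := by
      rw [h3 (i + 1)]; abel
    rw [e]
    refine (norm_sub_le _ _).trans ?_
    have a := h1 i
    have b := h1 (i + 1)
    have c := wt_add k i 1
    rw [add_comm 1 i] at c
    have d := wt_pos k i
    linarith
  refine ⟨k, hadm, ?_⟩
  have hs0 := summable_term (H := H) hadm 0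
  have hs1 := summable_term (H := H) hadm 1
  have hsum : ∀ i, term H k 0 i + term H k 1 i = dd H (k i) := by
    intro i
    unfold term
    rcases Nat.mod_two_eq_zero_or_one i with h | h
    · rw [h]; simp
    · rw [h]; simp
  have hpart : ∀ n, ∑ i ∈ Finset.range n, dd H (k i) = u - (stt u n).1 := by
    intro n
    induction n with
    | zero => simp [stt]
    | succ n ih => rw [Finset.sum_range_succ, ih, h3]; abel
  have hS : HasSum (fun i => dd H (k i)) (Sp H k 0 + Sp H k 1) := by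
    have := hs0.hasSum.add hs1.hasSum
    simp only [hsum] at this
    exact this
  have ht1 := hS.tendsto_sum_nat
  have ht2 : Tendsto (fun n => ∑ i ∈ Finset.range n, dd H (k i)) atTop (𝓝 u) := by
    simp only [hpart]
    have h4 : Tendsto (fun n => (stt u n).1) atTop (𝓝 0) := by
      rw [← tendsto_add_atTop_iff_nat 1]
      rw [tendsto_zero_iff_norm_tendsto_zero]
      refine squeeze_zero (fun n => norm_nonneg _) (fun n => ((h1 n).le.trans (wt_le k n)))
        (tendsto_pow_atTop_nhds_zero_of_lt_one (by norm_num) (by norm_num))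
    have h5 := h4.const_sub u
    rw [sub_zero] at h5
    exact h5
  exact tendsto_nhds_unique ht2 ht1

/-- The set. -/
def MM (H : Type) [NormedAddCommGroup H] [TopologicalSpace.SeparableSpace H] : Set H :=
  Ap H 0 ∪ {x | -x ∈ Ap H 1}

lemma cov_MM : Cov (MM H) := (cov_Ap 0 (by norm_num)).union (cov_Ap 1 (by norm_num)).neg

lemma exists_diff (u : H) : ∃ x ∈ MM H, ∃ y ∈ MM H, u = x - y := by
  obtain ⟨k, hk, hu⟩ := exists_adm u
  refine ⟨Sp H k 0, Or.inl ⟨k, hk, rfl⟩, -Sp H k 1, Or.inr ⟨k, hk, by rw [neg_neg]⟩, ?_⟩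
  rw [hu]; abel

end Seq

end Q99.SB
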