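import Mathlib
import Pool.Agent.Q99.SB.Defs

set_option autoImplicit false

/-!
Separable polyhedral Banach spaces have countable boundaries.
-/

namespace Q99.SB

open Set Topology Filter

variable {P : Type} [NormedAddCommGroup P] [NormedSpace ℝ P]

/-- The norm is affine on the segment from `x` to `x + w`. -/
def Aff (x w : P) : Prop := ∀ s ∈ Icc (0 : ℝ) 1, ‖x + s • w‖ = (1 - s) * ‖x‖ + s * ‖x + w‖

lemma Aff.smul {x w : P} (h : Aff x w) {c : ℝ} (h0 : 0 ≤ c) (h1 : c ≤ 1) : Aff x (c • w) := by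
  intro s hs
  have e1 := h c ⟨h0, h1⟩
  have e2 := h (s * c) ⟨mul_nonneg hs.1 h0, mul_le_one₀ hs.2 h0 h1⟩
  rw [mul_smul] at e2
  rw [e1, e2]; ring

lemma exists_norming (x : P) : ∃ F : P →L[ℝ] ℝ, ‖F‖ ≤ 1 ∧ F x = ‖x‖ := by
  obtain ⟨F, h1, h2⟩ := exists_dual_vector'' ℝ x
  exact ⟨F, h1, by simpa using h2⟩

lemma le_of_norm_le_one {F : P →L[ℝ] ℝ} (hF : ‖F‖ ≤ 1) (x : P) : F x ≤ ‖x‖ := by
  have h1 := F.le_of_opNorm_le hF x
  rw [one_mul] at h1
  exact (le_abs_self _).trans h1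

/-- At a non-extreme point of the ball of a plane, the norm is locally linear. -/
lemma locally_linear {x v : P} {t : ℝ} (hpos : 0 < ‖x + t • v‖)
    (hne : (‖x + t • v‖)⁻¹ • (x + t • v) ∉ Set.extremePoints ℝ
      {y : P | y ∈ Submodule.span ℝ ({x, v} : Set P) ∧ ‖y‖ ≤ 1}) :
    ∃ F : P →L[ℝ] ℝ, ∀ᶠ t' in 𝓝 t, ‖x + t' • v‖ = F (x + t' • v) := by
  set φ := ‖x + t • v‖ with hφ
  set y := φ⁻¹ • (x + t • v) with hy
  have hxE : x ∈ Submodule.span ℝ ({x, v} : Set P) := Submodule.subset_span (by simp)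
  have hvE : v ∈ Submodule.span ℝ ({x, v} : Set P) := Submodule.subset_span (by simp)
  have hyE : y ∈ Submodule.span ℝ ({x, v} : Set P) :=
    Submodule.smul_mem _ _ (Submodule.add_mem _ hxE (Submodule.smul_mem _ _ hvE))
  have hyn : ‖y‖ = 1 := by
    rw [hy, norm_smul, norm_inv, Real.norm_eq_abs, abs_of_pos hpos, ← hφ,
      inv_mul_cancel₀ hpos.ne']
  rw [mem_extremePoints] at hne
  push Not at hne
  obtain ⟨a, ha, b, hb, hab, hne'⟩ := hne ⟨hyE, hyn.le⟩
  obtain ⟨α, β, hα, hβ, hαβ, hyab⟩ := hab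
  obtain ⟨F, hF1, hF2⟩ := exists_norming y
  rw [hyn] at hF2
  have hFa : F a ≤ 1 := (le_of_norm_le_one hF1 a).trans ha.2
  have hFb : F b ≤ 1 := (le_of_norm_le_one hF1 b).trans hb.2
  have hFy : α * F a + β * F b = 1 := by
    rw [← hF2, ← hyab, map_add, map_smul, map_smul, smul_eq_mul, smul_eq_mul]
  have hFa1 : F a = 1 := by nlinarith
  have hFb1 : F b = 1 := by nlinarith
  have hab' : b - a ≠ 0 := by
    intro h
    have h1 : b = a := sub_eq_zero.1 h
    have h2 : a = y := by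
      rw [← hyab, h1, ← add_smul, hαβ, one_smul]
    exact hne' h2 (h1.trans h2)
  obtain ⟨a₁, a₂, hae⟩ := Submodule.mem_span_pair.1 ha.1
  obtain ⟨b₁, b₂, hbe⟩ := Submodule.mem_span_pair.1 hb.1
  set γ := (b₂ - a₂) - (b₁ - a₁) * t with hγ
  have hba : b - a = (b₁ - a₁) • (x + t • v) + γ • v := by
    rw [← hae, ← hbe, hγ]
    module
  have hxt : x + t • v = φ • y := by
    rw [hy, smul_smul, mul_inv_cancel₀ hpos.ne', one_smul]
  have hγ0 : γ ≠ 0 := by
    intro h
    rw [h, zero_smul, add_zero] at hba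
    have h1 : F (b - a) = 0 := by rw [map_sub, hFa1, hFb1, sub_self]
    rw [hba, hxt, map_smul, map_smul, hF2, smul_eq_mul, smul_eq_mul, mul_one] at h1
    rcases mul_eq_zero.1 h1 with h2 | h2
    · rw [h2, zero_smul] at hba
      exact hab' hba
    · exact hpos.ne' h2
  refine ⟨F, ?_⟩
  -- coefficients
  let κ : ℝ → ℝ := fun t' => 1 - (t' - t) * (b₁ - a₁) / γ
  let c₁ : ℝ → ℝ := fun t' => κ t' * φ * α - (t' - t) / γ
  let c₂ : ℝ → ℝ := fun t' => κ t' * φ * β + (t' - t) / γ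
  have hrep : ∀ t', x + t' • v = c₁ t' • a + c₂ t' • b := by
    intro t'
    have h1 : v = γ⁻¹ • ((b - a) - (b₁ - a₁) • (x + t • v)) := by
      rw [hba, add_sub_cancel_left, smul_smul, inv_mul_cancel₀ hγ0, one_smul]
    have h2 : x + t' • v = (x + t • v) + (t' - t) • v := by module
    have h3 : (t' - t) • v = ((t' - t) / γ) • (b - a) -
        ((t' - t) * (b₁ - a₁) / γ) • (x + t • v) := by
      conv_lhs => rw [h1]
      rw [smul_smul, smul_sub, smul_smul]
      congr 2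
      field_simp
    have h4 : x + t' • v = κ t' • (φ • (α • a + β • b)) + ((t' - t) / γ) • (b - a) := by
      rw [hyab, ← hxt, h2, h3]
      simp only [κ]
      module
    rw [h4]
    simp only [c₁, c₂]
    module
  have hcont1 : ContinuousAt c₁ t := by
    simp only [c₁, κ]; fun_prop
  have hcont2 : ContinuousAt c₂ t := by
    simp only [c₂, κ]; fun_prop
  have hc1 : 0 < c₁ t := by simp only [c₁, κ]; simp; positivity
  have hc2 : 0 < c₂ t := by simp only [c₂, κ]; simp; positivity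
  filter_upwards [hcont1.eventually (lt_mem_nhds hc1), hcont2.eventually (lt_mem_nhds hc2)]
    with t' h1 h2
  refine le_antisymm ?_ (le_of_norm_le_one hF1 _)
  rw [hrep t', map_add, map_smul, map_smul, hFa1, hFb1, smul_eq_mul, smul_eq_mul, mul_one, mul_one]
  refine (norm_add_le _ _).trans ?_
  rw [norm_smul, norm_smul, Real.norm_eq_abs, Real.norm_eq_abs, abs_of_pos h1, abs_of_pos h2]
  exact add_le_add (mul_le_of_le_one_right h1.le ha.2) (mul_le_of_le_one_right h2.le hb.2)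

/-- In a polyhedral space, the norm is affine on short segments. -/
lemma exists_aff (hP : Polyhedral P) (x v : P) : ∃ t₀ : ℝ, 0 < t₀ ∧ Aff x (t₀ • v) := by
  by_cases hx : x = 0
  · refine ⟨1, one_pos, fun s hs => ?_⟩
    rw [hx, zero_add, zero_add, norm_zero, mul_zero, zero_add, norm_smul, Real.norm_eq_abs,
      abs_of_nonneg hs.1]
  by_cases hdep : ∃ c : ℝ, v = c • x
  · obtain ⟨c, rfl⟩ := hdep
    have hc : 0 < |c| + 1 := by positivity
    refine ⟨(|c| + 1)⁻¹, inv_pos.2 hc, fun s hs => ?_⟩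
    have hcc : |(|c| + 1)⁻¹ * c| ≤ 1 := by
      rw [abs_mul, abs_inv, abs_of_pos hc, inv_mul_le_iff₀ hc]; linarith
    rw [abs_le] at hcc
    set d := (|c| + 1)⁻¹ * c with hd
    have e1 : x + s • (|c| + 1)⁻¹ • c • x = (1 + s * d) • x := by rw [hd]; module
    have e2 : x + (|c| + 1)⁻¹ • c • x = (1 + d) • x := by rw [hd]; module
    rw [e1, e2, norm_smul, norm_smul, Real.norm_eq_abs, Real.norm_eq_abs,
      abs_of_nonneg (by nlinarith [hs.1, hs.2]), abs_of_nonneg (by linarith)]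
    ring
  push Not at hdep
  have hind : ∀ t : ℝ, x + t • v ≠ 0 := by
    intro t ht
    by_cases h0 : t = 0
    · rw [h0, zero_smul, add_zero] at ht; exact hx ht
    · apply hdep (-t⁻¹)
      have h1 : t • v = -x := by
        rw [add_comm] at ht
        exact eq_neg_of_add_eq_zero_left ht
      calc v = t⁻¹ • (t • v) := by rw [smul_smul, inv_mul_cancel₀ h0, one_smul]
        _ = -t⁻¹ • x := by rw [h1, smul_neg, neg_smul]
  have hpos : ∀ t : ℝ, 0 < ‖x + t • v‖ := fun t => norm_pos_iff.2 (hind t)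
  have hfd : FiniteDimensional ℝ (Submodule.span ℝ ({x, v} : Set P)) :=
    FiniteDimensional.span_of_finite ℝ (by simp)
  obtain ⟨S, hS, hconv⟩ := hP _ hfd
  -- the exceptional parameters
  have hinj : Function.Injective fun t : ℝ => (‖x + t • v‖)⁻¹ • (x + t • v) := by
    intro t t' h
    simp only at h
    set p := (‖x + t • v‖)⁻¹ with hp
    set p' := (‖x + t' • v‖)⁻¹ with hp'
    have hp0 : 0 < p := inv_pos.2 (hpos t)
    have hp0' : 0 < p' := inv_pos.2 (hpos t')
    have h1 : (p - p') • x = (p' * t' - p * t) • v := by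
      have h2 : p • x + (p * t) • v = p' • x + (p' * t') • v := by
        have h3 : p • (x + t • v) = p • x + (p * t) • v := by module
        have h4 : p' • (x + t' • v) = p' • x + (p' * t') • v := by module
        rw [← h3, ← h4]; exact h
      rw [sub_smul, sub_smul, sub_eq_sub_iff_add_eq_add, h2, add_comm]
    have h2 : p' * t' - p * t = 0 := by
      by_contra hne
      apply hdep ((p' * t' - p * t)⁻¹ * (p - p'))
      rw [mul_smul, h1, smul_smul, inv_mul_cancel₀ hne, one_smul]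
    rw [h2, zero_smul] at h1
    have h3 : p = p' := by
      rcases smul_eq_zero.1 h1 with h4 | h4
      · linarith
      · exact absurd h4 hx
    rw [← h3] at h2
    have h5 : p * (t' - t) = 0 := by linarith
    rcases mul_eq_zero.1 h5 with h6 | h6
    · exact absurd h6 hp0.ne'
    · linarith
  have hfin : ((fun t : ℝ => (‖x + t • v‖)⁻¹ • (x + t • v)) ⁻¹' S \ {0}).Finite :=
    (hS.preimage hinj.injOn).sdiff
  obtain ⟨t₀, ht₀, ht₀'⟩ : ∃ t₀ : ℝ, 0 < t₀ ∧ ∀ t ∈ Ioo 0 t₀,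
      (‖x + t • v‖)⁻¹ • (x + t • v) ∉ S := by
    have h1 : ((fun t : ℝ => (‖x + t • v‖)⁻¹ • (x + t • v)) ⁻¹' S \ {0})ᶜ ∈ 𝓝 (0 : ℝ) :=
      hfin.isClosed.isOpen_compl.mem_nhds (by simp)
    obtain ⟨ε, hε, hball⟩ := Metric.mem_nhds_iff.1 h1
    refine ⟨ε, hε, fun t ht hcon => ?_⟩
    have h2 : t ∈ Metric.ball (0 : ℝ) ε := by
      rw [Metric.mem_ball, Real.dist_eq, sub_zero, abs_of_pos ht.1]; exact ht.2
    exact hball h2 ⟨hcon, ht.1.ne'⟩
  have hloc : ∀ t ∈ Ioo 0 t₀, ∃ F : P →L[ℝ] ℝ, ∀ᶠ t' in 𝓝 t, ‖x + t' • v‖ = F (x + t' • v) := by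
    intro t ht
    refine locally_linear (hpos t) fun hext => ht₀' t ht ?_
    rw [← hconv] at hext
    exact extremePoints_convexHull_subset hext
  -- the functional near the midpoint
  have hmid : t₀ / 2 ∈ Ioo 0 t₀ := ⟨by linarith, by linarith⟩
  obtain ⟨F, hF⟩ := hloc (t₀ / 2) hmid
  have hopen : IsOpen {t : ℝ | ∀ᶠ t' in 𝓝 t, ‖x + t' • v‖ = F (x + t' • v)} :=
    isOpen_setOfPred_eventually_nhds
  have hsub : Ioo 0 t₀ ⊆ {t : ℝ | ∀ᶠ t' in 𝓝 t, ‖x + t' • v‖ = F (x + t' • v)} := by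
    refine isPreconnected_Ioo.subset_of_closure_inter_subset hopen ⟨t₀ / 2, hmid, hF⟩ ?_
    rintro t ⟨htc, ht⟩
    obtain ⟨G, hG⟩ := hloc t ht
    have hG' := hG.eventually_nhds
    obtain ⟨t₁, ht₁, ht₁'⟩ := (mem_closure_iff_nhds.1 htc) _ hG'
    -- near `t₁` both hold
    have h1 : ∀ᶠ t' in 𝓝 t₁, F (x + t' • v) = G (x + t' • v) := by
      have a1 : ∀ᶠ t' in 𝓝 t₁, ‖x + t' • v‖ = G (x + t' • v) := ht₁
      have a2 : ∀ᶠ t' in 𝓝 t₁, ‖x + t' • v‖ = F (x + t' • v) := ht₁'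
      filter_upwards [a1, a2] with t' h1 h2
      rw [← h1, ← h2]
    obtain ⟨ε, hε, hb⟩ := Metric.eventually_nhds_iff.1 h1
    have b1 := hb (y := t₁) (by simpa using hε)
    have b2 := hb (y := t₁ + ε / 2) (by
      rw [Real.dist_eq, add_sub_cancel_left, abs_of_pos (by linarith)]; linarith)
    have hlin : ∀ (K : P →L[ℝ] ℝ) (t' : ℝ), K (x + t' • v) = K x + t' * K v := by
      intro K t'
      rw [map_add, map_smul, smul_eq_mul]
    rw [hlin, hlin] at b1 b2
    have b3 : F v = G v := by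
      have : ε / 2 * (F v - G v) = 0 := by linarith
      rcases mul_eq_zero.1 this with h | h
      · linarith
      · linarith
    have b4 : F x = G x := by rw [b3] at b1; linarith
    have : ∀ᶠ t' in 𝓝 t, ‖x + t' • v‖ = F (x + t' • v) := by
      filter_upwards [hG] with t' h
      rw [h, hlin, hlin, b3, b4]
    exact this
  have hval : ∀ t ∈ Icc 0 (t₀ / 2), ‖x + t • v‖ = F (x + t • v) := by
    intro t ht
    rcases eq_or_lt_of_le ht.1 with h | h
    · -- the endpoint by continuity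
      have hc1 : Continuous fun t : ℝ => ‖x + t • v‖ := by fun_prop
      have hc2 : Continuous fun t : ℝ => F (x + t • v) := by fun_prop
      have hcl : IsClosed {t : ℝ | ‖x + t • v‖ = F (x + t • v)} := isClosed_eq hc1 hc2
      have h2 : closure (Ioo 0 t₀) ⊆ {t : ℝ | ‖x + t • v‖ = F (x + t • v)} :=
        closure_minimal (fun t ht => (hsub ht).self_of_nhds) hcl
      rw [closure_Ioo ht₀.ne] at h2
      exact h2 ⟨ht.1, by linarith [ht.2]⟩
    · have h1 : t ∈ Ioo 0 t₀ := ⟨h, by linarith [ht.2]⟩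
      exact (hsub h1).self_of_nhds
  refine ⟨t₀ / 2, by linarith, fun s hs => ?_⟩
  have e0 := hval 0 ⟨le_rfl, by linarith⟩
  have e1 := hval (t₀ / 2) ⟨by linarith, le_rfl⟩
  have e2 := hval (s * (t₀ / 2)) ⟨mul_nonneg hs.1 (by linarith),
    mul_le_of_le_one_left (by linarith) hs.2⟩
  rw [zero_smul, add_zero] at e0
  rw [smul_smul, e2, e0, e1, map_add, map_add, map_smul, map_smul, smul_eq_mul, smul_eq_mul]
  ring

end Q99.SB
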