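import Mathlib
import Pool.Agent.Q99.SB.Poly

set_option autoImplicit false

/-!
Separable polyhedral Banach spaces have countable boundaries.
-/

namespace Q99.SB

open Set Topology Filter

variable {P : Type} [NormedAddCommGroup P] [NormedSpace ℝ P]

lemma isClosed_aff : IsClosed {p : P × P | Aff p.1 p.2} := by
  have : {p : P × P | Aff p.1 p.2} = ⋂ s ∈ Icc (0 : ℝ) 1,
      {p : P × P | ‖p.1 + s • p.2‖ = (1 - s) * ‖p.1‖ + s * ‖p.1 + p.2‖} := by
    ext p
    simp only [mem_ofPred_eq, mem_iInter]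
    rfl
  rw [this]
  refine isClosed_biInter fun s _ => isClosed_eq ?_ ?_ <;> fun_prop

/-- Functionals agreeing with the norm on some ball. -/
def VV (P : Type) [NormedAddCommGroup P] [NormedSpace ℝ P] : Set (P →L[ℝ] ℝ) :=
  {F | ∃ x : P, ∃ r : ℝ, 0 < r ∧ ∀ y ∈ Metric.ball x r, ‖y‖ = F y}

lemma le_of_mem_VV {F : P →L[ℝ] ℝ} (hF : F ∈ VV P) (w : P) : F w ≤ ‖w‖ := by
  obtain ⟨x, r, hr, h⟩ := hF
  set t := r / 2 / (‖w‖ + 1) with ht
  have hw : 0 < ‖w‖ + 1 := by positivity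
  have ht0 : 0 < t := by positivity
  have h1 : x + t • w ∈ Metric.ball x r := by
    rw [Metric.mem_ball, dist_eq_norm, add_sub_cancel_left, norm_smul, Real.norm_eq_abs,
      abs_of_pos ht0, ht, div_mul_eq_mul_div, div_lt_iff₀ hw]
    nlinarith [norm_nonneg w]
  have h2 := h _ h1
  have h3 := h x (Metric.mem_ball_self hr)
  rw [map_add, map_smul, smul_eq_mul, ← h3] at h2
  have h4 : ‖x + t • w‖ ≤ ‖x‖ + t * ‖w‖ := by
    refine (norm_add_le _ _).trans ?_
    rw [norm_smul, Real.norm_eq_abs, abs_of_pos ht0]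
  have h5 : t * F w ≤ t * ‖w‖ := by linarith
  exact le_of_mul_le_mul_left h5 ht0

lemma abs_le_of_mem_VV {F : P →L[ℝ] ℝ} (hF : F ∈ VV P) (w : P) : |F w| ≤ ‖w‖ := by
  rw [abs_le]
  refine ⟨?_, le_of_mem_VV hF w⟩
  have := le_of_mem_VV hF (-w)
  rw [map_neg, norm_neg] at this
  linarith

lemma eq_of_agree {F G : P →L[ℝ] ℝ} {x : P} (h : ∀ᶠ y in 𝓝 x, F y = G y) : F = G := by
  ext w
  obtain ⟨ε, hε, hb⟩ := Metric.eventually_nhds_iff.1 h
  set t := ε / 2 / (‖w‖ + 1) with ht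
  have hw : 0 < ‖w‖ + 1 := by positivity
  have ht0 : 0 < t := by positivity
  have h1 : F (x + t • w) = G (x + t • w) := by
    apply hb
    rw [dist_eq_norm, add_sub_cancel_left, norm_smul, Real.norm_eq_abs,
      abs_of_pos ht0, ht, div_mul_eq_mul_div, div_lt_iff₀ hw]
    nlinarith [norm_nonneg w]
  have h2 : F x = G x := hb (by simpa using hε)
  rw [map_add, map_add, h2, map_smul, map_smul, smul_eq_mul, smul_eq_mul] at h1
  have h3 : t * (F w - G w) = 0 := by linarith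
  rcases mul_eq_zero.1 h3 with h | h
  · exact absurd h ht0.ne'
  · linarith

lemma countable_VV [TopologicalSpace.SeparableSpace P] : (VV P).Countable := by
  obtain ⟨Q, hQc, hQd⟩ := TopologicalSpace.exists_countable_dense P
  have hch : ∀ F : VV P, ∃ q : Q, ∀ᶠ y in 𝓝 (q : P), ‖y‖ = F.1 y := by
    rintro ⟨F, x, r, hr, h⟩
    obtain ⟨q, hq1, hq2⟩ := hQd.exists_mem_open Metric.isOpen_ball ⟨x, Metric.mem_ball_self hr⟩
    refine ⟨⟨q, hq1⟩, ?_⟩
    filter_upwards [Metric.isOpen_ball.mem_nhds hq2] with y hy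
    exact h y hy
  choose q hq using hch
  have hinj : Function.Injective q := by
    intro F G hFG
    apply Subtype.ext
    refine eq_of_agree (x := (q F : P)) ?_
    have h1 := hq F
    have h2 := hq G
    rw [← hFG] at h2
    filter_upwards [h1, h2] with y a b
    rw [← a, ← b]
  have : Countable Q := hQc.to_subtype
  exact Set.countable_coe_iff.1 hinj.countable

/-- The set of directions at `v` contains a ball. -/
lemma baire_dir [CompleteSpace P] (hP : Polyhedral P) (v : P) :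
    ∃ (n : ℕ) (w₀ : P) (r : ℝ), 0 < r ∧ ∀ w ∈ Metric.ball w₀ r, Aff v (((n : ℝ) + 1)⁻¹ • w) := by
  have hcl : ∀ n : ℕ, IsClosed {w : P | Aff v (((n : ℝ) + 1)⁻¹ • w)} := by
    intro n
    have h1 : Continuous fun w : P => ((v, ((n : ℝ) + 1)⁻¹ • w) : P × P) := by fun_prop
    exact isClosed_aff.preimage h1
  have hU : ⋃ n : ℕ, {w : P | Aff v (((n : ℝ) + 1)⁻¹ • w)} = univ := by
    refine eq_univ_of_forall fun w => ?_
    obtain ⟨t₀, ht₀, h⟩ := exists_aff hP v w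
    obtain ⟨n, hn⟩ := exists_nat_gt (1 / t₀)
    rw [mem_iUnion]
    refine ⟨n, ?_⟩
    have h1 : ((n : ℝ) + 1)⁻¹ ≤ t₀ := by
      rw [inv_le_comm₀ (by positivity) ht₀]
      rw [one_div] at hn
      linarith
    have h2 := h.smul (c := ((n : ℝ) + 1)⁻¹ / t₀) (by positivity) ((div_le_one ht₀).2 h1)
    rw [smul_smul, div_mul_cancel₀ _ ht₀.ne'] at h2
    exact h2
  obtain ⟨n, w₀, hw₀⟩ := nonempty_interior_of_iUnion_of_closed hcl hU
  obtain ⟨r, hr, hball⟩ := Metric.isOpen_iff.1 isOpen_interior w₀ hw₀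
  exact ⟨n, w₀, r, hr, fun w hw => interior_subset (hball hw)⟩

/-- Open sets on which the norm is linear are dense. -/
lemma exists_VV [CompleteSpace P] [TopologicalSpace.SeparableSpace P] (hP : Polyhedral P)
    (c : P) (ρ : ℝ) (hρ : 0 < ρ) :
    ∃ F ∈ VV P, ∃ x ∈ Metric.ball c ρ, ∃ r : ℝ, 0 < r ∧ ∀ y ∈ Metric.ball x r, ‖y‖ = F y := by
  obtain ⟨Q, hQc, hQd⟩ := TopologicalSpace.exists_countable_dense P
  have : Countable Q := hQc.to_subtype
  let E : ℕ × Q × ℕ → Set P := fun i =>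
    {v | ∀ w ∈ Metric.ball (i.2.1 : P) ((i.2.2 : ℝ) + 1)⁻¹, Aff v (((i.1 : ℝ) + 1)⁻¹ • w)}
  have hcl : ∀ i, IsClosed (E i) := by
    intro i
    have : E i = ⋂ w ∈ Metric.ball (i.2.1 : P) ((i.2.2 : ℝ) + 1)⁻¹,
        {v | Aff v (((i.1 : ℝ) + 1)⁻¹ • w)} := by
      ext v
      simp only [E, mem_ofPred_eq, mem_iInter]
    rw [this]
    refine isClosed_biInter fun w _ => ?_
    have h1 : Continuous fun v : P => ((v, ((i.1 : ℝ) + 1)⁻¹ • w) : P × P) := by fun_prop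
    exact isClosed_aff.preimage h1
  have hU : ⋃ i, E i = univ := by
    refine eq_univ_of_forall fun v => ?_
    obtain ⟨n, w₀, r, hr, h⟩ := baire_dir hP v
    obtain ⟨k, hk⟩ := exists_nat_gt (2 / r)
    obtain ⟨q, hq1, hq2⟩ := hQd.exists_mem_open (Metric.isOpen_ball (x := w₀) (ε := r / 2))
      ⟨w₀, Metric.mem_ball_self (by linarith)⟩
    rw [mem_iUnion]
    refine ⟨(n, ⟨q, hq1⟩, k), fun w hw => h w ?_⟩
    rw [Metric.mem_ball] at hw hq2 ⊢
    have h1 : ((k : ℝ) + 1)⁻¹ ≤ r / 2 := by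
      rw [inv_le_comm₀ (by positivity) (by linarith), inv_div]
      linarith
    calc dist w w₀ ≤ dist w q + dist q w₀ := dist_triangle _ _ _
      _ < r / 2 + r / 2 := add_lt_add_of_lt_of_le (lt_of_lt_of_le hw h1) hq2.le
      _ = r := by ring
  have hdense := dense_iUnion_interior_of_closed hcl hU
  obtain ⟨v₁, hv₁, hv₁'⟩ := hdense.exists_mem_open (Metric.isOpen_ball (x := c) (ε := ρ))
    ⟨c, Metric.mem_ball_self hρ⟩
  rw [mem_iUnion] at hv₁
  obtain ⟨⟨n, q, k⟩, hi⟩ := hv₁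
  -- a ball around `v₁`
  have hopen : IsOpen (Metric.ball c ρ ∩ interior (E (n, q, k))) :=
    Metric.isOpen_ball.inter isOpen_interior
  obtain ⟨ρ', hρ', hball⟩ := Metric.isOpen_iff.1 hopen v₁ ⟨hv₁', hi⟩
  obtain ⟨F, hF1, hF2⟩ := exists_norming v₁
  set κ := ((k : ℝ) + 1)⁻¹ with hκ
  have hκ0 : 0 < κ := by positivity
  set N := ((n : ℝ) + 1)⁻¹ with hN
  have hN0 : 0 < N := by positivity
  -- the step size
  set s₀ := min (N / 2) (ρ' / (2 * (‖(q : P)‖ + κ + 1))) with hs₀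
  have hden : 0 < 2 * (‖(q : P)‖ + κ + 1) := by positivity
  have hs₀0 : 0 < s₀ := lt_min (by linarith) (by positivity)
  have hs₀N : s₀ ≤ N / 2 := min_le_left _ _
  have hs₀ρ : s₀ * (‖(q : P)‖ + κ + 1) ≤ ρ' / 2 := by
    have h1 : s₀ ≤ ρ' / (2 * (‖(q : P)‖ + κ + 1)) := min_le_right _ _
    rw [le_div_iff₀ hden] at h1
    linarith
  have hwn : ∀ w ∈ Metric.ball (q : P) κ, ‖s₀ • w‖ ≤ ρ' / 2 := by
    intro w hw
    rw [norm_smul, Real.norm_eq_abs, abs_of_pos hs₀0]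
    refine le_trans (mul_le_mul_of_nonneg_left ?_ hs₀0.le) hs₀ρ
    rw [Metric.mem_ball, dist_eq_norm] at hw
    have : ‖w‖ ≤ ‖(q : P)‖ + ‖w - q‖ := by
      calc ‖w‖ = ‖(q : P) + (w - q)‖ := by congr 1; abel
        _ ≤ _ := norm_add_le _ _
    linarith
  have key : ∀ w ∈ Metric.ball (q : P) κ, ‖v₁ + s₀ • w‖ = F (v₁ + s₀ • w) := by
    intro w hw
    have hmem : v₁ - s₀ • w ∈ Metric.ball v₁ ρ' := by
      rw [Metric.mem_ball, dist_eq_norm, sub_sub_cancel_left, norm_neg]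
      linarith [hwn w hw]
    have hE : v₁ - s₀ • w ∈ E (n, q, k) := interior_subset (hball hmem).2
    have haff : Aff (v₁ - s₀ • w) (N • w) := hE w hw
    have h2 : Aff (v₁ - s₀ • w) ((2 * s₀) • w) := by
      have h3 := haff.smul (c := 2 * s₀ / N) (by positivity) (by
        rw [div_le_one hN0]; linarith)
      rw [smul_smul, div_mul_cancel₀ _ hN0.ne'] at h3
      exact h3
    have h4 := h2 (1 / 2) ⟨by norm_num, by norm_num⟩
    have e1 : v₁ - s₀ • w + (1 / 2 : ℝ) • (2 * s₀) • w = v₁ := by module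
    have e2 : v₁ - s₀ • w + (2 * s₀) • w = v₁ + s₀ • w := by module
    rw [e1, e2] at h4
    have h5 := le_of_norm_le_one hF1 (v₁ + s₀ • w)
    have h6 := le_of_norm_le_one hF1 (v₁ - s₀ • w)
    have h7 : F (v₁ + s₀ • w) + F (v₁ - s₀ • w) = 2 * F v₁ := by
      rw [map_add, map_sub]; ring
    rw [hF2] at h7
    linarith
  have hballF : ∀ y ∈ Metric.ball (v₁ + s₀ • (q : P)) (s₀ * κ), ‖y‖ = F y := by
    intro y hy
    set w := s₀⁻¹ • (y - v₁) with hw
    have e1 : y = v₁ + s₀ • w := by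
      rw [hw, smul_smul, mul_inv_cancel₀ hs₀0.ne', one_smul]; abel
    rw [e1]
    apply key
    rw [Metric.mem_ball, dist_eq_norm] at hy ⊢
    have e2 : w - q = s₀⁻¹ • (y - (v₁ + s₀ • (q : P))) := by
      rw [hw, ← sub_sub, smul_sub s₀⁻¹ (y - v₁), smul_smul, inv_mul_cancel₀ hs₀0.ne', one_smul]
    rw [e2, norm_smul, norm_inv, Real.norm_eq_abs, abs_of_pos hs₀0, inv_mul_lt_iff₀ hs₀0]
    exact hy
  refine ⟨F, ⟨v₁ + s₀ • (q : P), s₀ * κ, by positivity, hballF⟩, v₁ + s₀ • (q : P), ?_, s₀ * κ,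
    by positivity, hballF⟩
  have hmem : v₁ + s₀ • (q : P) ∈ Metric.ball v₁ ρ' := by
    rw [Metric.mem_ball, dist_eq_norm, add_sub_cancel_left]
    linarith [hwn q (Metric.mem_ball_self hκ0)]
  exact (hball hmem).1

/-- The functionals agreeing with the norm on some ball form a boundary. -/
lemma boundary [CompleteSpace P] [TopologicalSpace.SeparableSpace P] (hP : Polyhedral P) (v : P) :
    ∃ F ∈ VV P, ‖v‖ = F v := by
  obtain ⟨n, w₀, r, hr, h⟩ := baire_dir hP v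
  set N := ((n : ℝ) + 1)⁻¹ with hN
  have hN0 : 0 < N := by positivity
  obtain ⟨F, hF, x, hx, r', hr', hlin⟩ := exists_VV hP (v + (N / 2) • w₀) (N / 2 * r) (by positivity)
  refine ⟨F, hF, ?_⟩
  set w := (N / 2)⁻¹ • (x - v) with hw
  have hN2 : 0 < N / 2 := by positivity
  have e1 : x = v + (N / 2) • w := by
    rw [hw, smul_smul, mul_inv_cancel₀ hN2.ne', one_smul]; abel
  have hwb : w ∈ Metric.ball w₀ r := by
    rw [Metric.mem_ball, dist_eq_norm] at hx ⊢
    have e2 : w - w₀ = (N / 2)⁻¹ • (x - (v + (N / 2) • w₀)) := by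
      rw [hw, ← sub_sub, smul_sub (N / 2)⁻¹ (x - v), smul_smul, inv_mul_cancel₀ hN2.ne', one_smul]
    rw [e2, norm_smul, norm_inv, Real.norm_eq_abs, abs_of_pos hN2, inv_mul_lt_iff₀ hN2]
    exact hx
  have haff := h w hwb
  have h4 := haff (1 / 2) ⟨by norm_num, by norm_num⟩
  have e2 : v + (1 / 2 : ℝ) • N • w = x := by rw [e1]; module
  rw [e2, hlin x (Metric.mem_ball_self hr')] at h4
  have h5 := le_of_mem_VV hF v
  have h6 := le_of_mem_VV hF (v + N • w)
  have a1 : F x = F v + N / 2 * F w :=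
    (congrArg F e1).trans (by rw [map_add, map_smul, smul_eq_mul])
  have a2 : F (v + N • w) = F v + N * F w := by rw [map_add, map_smul, smul_eq_mul]
  linarith

end Q99.SB
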