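import Mathlib
import Pool.Agent.Q99.SB.Bdry

set_option autoImplicit false

/-!
Infinite-dimensional Hilbert spaces are not isomorphically polyhedral.
-/

namespace Q99.SB

open Set Topology Filter

section Hilbert

variable {H : Type*} [NormedAddCommGroup H] [InnerProductSpace ℝ H] [CompleteSpace H]

omit [CompleteSpace H] in
lemma exists_unit (hinf : ¬ FiniteDimensional ℝ H) (K : Submodule ℝ H) (hK : FiniteDimensional ℝ K) :
    ∃ v ∈ Kᗮ, ‖v‖ = 1 := by
  have h1 : Kᗮ ≠ ⊥ := by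
    intro h
    rw [Submodule.orthogonal_eq_bot_iff] at h
    rw [h] at hK
    exact hinf (Module.Finite.equiv (Submodule.topEquiv (R := ℝ) (M := H)))
  obtain ⟨v, hv, hv0⟩ := Submodule.exists_mem_ne_zero_of_ne_bot h1
  refine ⟨(‖v‖)⁻¹ • v, Submodule.smul_mem _ _ hv, ?_⟩
  rw [norm_smul, norm_inv, norm_norm, inv_mul_cancel₀ (norm_ne_zero_iff.2 hv0)]

/-- The states of the construction. -/
structure St (D : Set H) where
  x : H
  K : Submodule ℝ H
  hx : x ∈ D
  hK : x ∈ K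
  fd : FiniteDimensional ℝ K

/-- One step. -/
def Rel (D : Set H) (s s' : St D) : Prop :=
  ∃ (v : H) (t : ℝ), v ∈ s.Kᗮ ∧ v ∈ s'.K ∧ s.K ≤ s'.K ∧ ‖v‖ = 1 ∧ 0 ≤ t ∧ s'.x = s.x + t • v ∧
    ∀ v' ∈ s.Kᗮ, ‖v'‖ = 1 → ∀ t' : ℝ, 0 ≤ t' → s.x + t' • v' ∈ D → t' ≤ 2 * t

lemma step (hinf : ¬ FiniteDimensional ℝ H) {D : Set H} {R : ℝ} (hR : ∀ x ∈ D, ‖x‖ ≤ R)
    (s : St D) : ∃ s', Rel D s s' := by
  obtain ⟨v₀, hv₀, hv₀n⟩ := exists_unit hinf s.K s.fd
  set Ts : Set ℝ := {t | 0 ≤ t ∧ ∃ v ∈ s.Kᗮ, ‖v‖ = 1 ∧ s.x + t • v ∈ D} with hTs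
  have h0 : (0 : ℝ) ∈ Ts := ⟨le_rfl, v₀, hv₀, hv₀n, by rw [zero_smul, add_zero]; exact s.hx⟩
  have hbdd : BddAbove Ts := by
    refine ⟨R + ‖s.x‖, ?_⟩
    rintro t ⟨ht, v, _, hv, hD⟩
    have h1 := hR _ hD
    have h2 : ‖t • v‖ ≤ ‖s.x + t • v‖ + ‖s.x‖ := by
      have : t • v = (s.x + t • v) - s.x := by abel
      calc ‖t • v‖ = ‖(s.x + t • v) - s.x‖ := by rw [← this]
        _ ≤ _ := norm_sub_le _ _
    rw [norm_smul, hv, mul_one, Real.norm_eq_abs, abs_of_nonneg ht] at h2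
    linarith
  obtain ⟨t, ht, hsup⟩ : ∃ t ∈ Ts, sSup Ts ≤ 2 * t := by
    by_cases hs : sSup Ts ≤ 0
    · exact ⟨0, h0, by simpa using hs⟩
    · push Not at hs
      obtain ⟨t, ht, hlt⟩ := exists_lt_of_lt_csSup ⟨0, h0⟩ (show sSup Ts / 2 < sSup Ts by linarith)
      exact ⟨t, ht, by linarith⟩
  obtain ⟨ht0, v, hv, hvn, hD⟩ := ht
  have hfd := s.fd
  refine ⟨⟨s.x + t • v, s.K ⊔ Submodule.span ℝ {v}, hD, ?_, ?_⟩, v, t, hv, ?_, le_sup_left, hvn,
    ht0, rfl, fun v' hv' hv'n t' ht' hD' => ?_⟩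
  · exact Submodule.add_mem_sup s.hK (Submodule.smul_mem _ _ (Submodule.mem_span_singleton_self v))
  · infer_instance
  · exact Submodule.mem_sup_right (Submodule.mem_span_singleton_self v)
  · exact (le_csSup hbdd ⟨ht', v', hv', hv'n, hD'⟩).trans hsup

/-- The local structure of the set `D` contradicts infinite dimension. -/
theorem no_such_set (hinf : ¬ FiniteDimensional ℝ H) (D : Set H) (hD : IsClosed D) (h0 : (0 : H) ∈ D)
    {R : ℝ} (hR : ∀ x ∈ D, ‖x‖ ≤ R)
    (hloc : ∀ x ∈ D, ∃ A : Submodule ℝ H, FiniteDimensional ℝ A ∧ ∃ t₀ : ℝ, 0 < t₀ ∧ ∃ ρ : ℝ, 0 < ρ ∧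
      ∀ x' ∈ D, ‖x' - x‖ < ρ → ∀ v ∈ Aᗮ, ‖v‖ = 1 → x' + t₀ • v ∈ D) : False := by
  choose f hf using fun s : St D => step hinf hR s
  let s0 : St D := ⟨0, ⊥, h0, Submodule.zero_mem _, inferInstance⟩
  let s : ℕ → St D := fun n => Nat.rec s0 (fun _ s => f s) n
  have hs : ∀ n, Rel D (s n) (s (n + 1)) := fun n => hf (s n)
  choose v t hv1 hv2 hv3 hv4 hv5 hv6 hv7 using hs
  have hmono : Monotone fun n => (s n).K := monotone_nat_of_le_succ hv3
  -- differences
  have hdiff : ∀ n m, n ≤ m → ∀ y ∈ (s n).K, inner ℝ y ((s m).x - (s n).x) = 0 := by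
    intro n m hnm
    induction m, hnm using Nat.le_induction with
    | base => intro y _; rw [sub_self, inner_zero_right]
    | succ m hnm ih =>
      intro y hy
      rw [hv6 m, add_sub_right_comm, inner_add_right, ih y hy, inner_smul_right,
        (Submodule.mem_orthogonal _ _).1 (hv1 m) y (hmono hnm hy), mul_zero, add_zero]
  have hnorm : ∀ n m, n ≤ m → ‖(s m).x - (s n).x‖ ^ 2 = ‖(s m).x‖ ^ 2 - ‖(s n).x‖ ^ 2 := by
    intro n m hnm
    have h1 := hdiff n m hnm (s n).x (s n).hK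
    have h2 : (s m).x = (s n).x + ((s m).x - (s n).x) := by abel
    have h3 : ‖(s n).x + ((s m).x - (s n).x)‖ ^ 2 =
        ‖(s n).x‖ ^ 2 + ‖(s m).x - (s n).x‖ ^ 2 := by
      rw [norm_add_sq_real, h1]; ring
    rw [← h2] at h3
    linarith
  have hmonon : Monotone fun n => ‖(s n).x‖ ^ 2 := by
    intro n m hnm
    have := hnorm n m hnm
    have h2 : 0 ≤ ‖(s m).x - (s n).x‖ ^ 2 := by positivity
    simp only
    linarith
  have hR0 : 0 ≤ R := by simpa using hR 0 h0
  have hbdd : BddAbove (range fun n => ‖(s n).x‖ ^ 2) := by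
    refine ⟨R ^ 2, ?_⟩
    rintro _ ⟨n, rfl⟩
    exact pow_le_pow_left₀ (norm_nonneg _) (hR _ (s n).hx) 2
  have hconv := tendsto_atTop_ciSup hmonon hbdd
  have hcau : CauchySeq fun n => (s n).x := by
    rw [Metric.cauchySeq_iff']
    intro ε hε
    obtain ⟨N, hN⟩ := (Metric.cauchySeq_iff'.1 hconv.cauchySeq) (ε ^ 2) (by positivity)
    refine ⟨N, fun n hn => ?_⟩
    have h1 := hN n hn
    rw [Real.dist_eq, ← hnorm N n hn, abs_of_nonneg (by positivity)] at h1
    rw [dist_eq_norm]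
    exact lt_of_pow_lt_pow_left₀ 2 hε.le h1
  obtain ⟨x, hx⟩ := cauchySeq_tendsto_of_complete hcau
  have hxD : x ∈ D := hD.mem_of_tendsto hx (Filter.Eventually.of_forall fun n => (s n).hx)
  obtain ⟨A, hA, t₀, ht₀, ρ, hρ, hloc'⟩ := hloc x hxD
  -- lower bound for the steps
  have hlow : ∀ᶠ n in atTop, t₀ ≤ 2 * t n := by
    filter_upwards [Metric.tendsto_nhds.1 hx ρ hρ] with n hn
    rw [dist_eq_norm] at hn
    have hfd1 := (s n).fd
    obtain ⟨w, hw, hwn⟩ := exists_unit hinf ((s n).K ⊔ A) inferInstance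
    have hw1 : w ∈ (s n).Kᗮ := Submodule.orthogonal_le le_sup_left hw
    have hw2 : w ∈ Aᗮ := Submodule.orthogonal_le le_sup_right hw
    exact hv7 n w hw1 hwn t₀ ht₀.le (hloc' _ (s n).hx hn w hw2 hwn)
  have hupp : ∀ᶠ n in atTop, t n < t₀ / 2 := by
    obtain ⟨N, hN⟩ := (Metric.cauchySeq_iff'.1 hcau) (t₀ / 4) (by positivity)
    refine Filter.eventually_atTop.2 ⟨N, fun n hn => ?_⟩
    have h1 := hN n hn
    have h2 := hN (n + 1) (by omega)
    rw [dist_eq_norm] at h1 h2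
    have h3 : ‖t n • v n‖ < t₀ / 2 := by
      have e : t n • v n = ((s (n + 1)).x - (s N).x) - ((s n).x - (s N).x) := by
        rw [hv6 n]; abel
      rw [e]
      refine (norm_sub_le _ _).trans_lt ?_
      linarith
    rw [norm_smul, hv4, mul_one, Real.norm_eq_abs, abs_of_nonneg (hv5 n)] at h3
    exact h3
  obtain ⟨n, h1, h2⟩ := (hlow.and hupp).exists
  linarith

end Hilbert

/-- No infinite-dimensional separable Hilbert space is isomorphic to a polyhedral space. -/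
theorem hilbert_not_isoPolyhedral {H : Type} [NormedAddCommGroup H] [InnerProductSpace ℝ H]
    [CompleteSpace H] [TopologicalSpace.SeparableSpace H] (hinf : ¬ FiniteDimensional ℝ H) :
    ¬ IsoPolyhedral H := by
  rintro ⟨P, _, _, hP, ⟨e⟩⟩
  have hcomp : CompleteSpace P :=
    (completeSpace_congr (e := e.symm.toEquiv) e.symm.isUniformEmbedding).2 inferInstance
  have hsep : TopologicalSpace.SeparableSpace P :=
    e.surjective.denseRange.separableSpace e.continuous
  have hcount := countable_VV (P := P)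
  obtain ⟨F₀, hF₀, _⟩ := boundary hP (0 : P)
  obtain ⟨F, hF⟩ := hcount.exists_eq_range ⟨F₀, hF₀⟩
  have hFV : ∀ i, F i ∈ VV P := fun i => by rw [hF]; exact ⟨i, rfl⟩
  let ε : ℕ → ℝ := fun i => ((i : ℝ) + 1)⁻¹
  have hε0 : ∀ i, 0 < ε i := fun i => by simp only [ε]; positivity
  have hε1 : ∀ i, ε i ≤ 1 := fun i => by
    simp only [ε]
    exact inv_le_one_of_one_le₀ (by linarith [Nat.cast_nonneg (α := ℝ) i])
  set D : Set H := {x | ∀ i, (1 + ε i) * |F i (e x)| ≤ 1} with hDdef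
  have hDcl : IsClosed D := by
    have : D = ⋂ i, {x | (1 + ε i) * |F i (e x)| ≤ 1} := by
      ext x; simp only [hDdef, mem_ofPred_eq, mem_iInter]
    rw [this]
    refine isClosed_iInter fun i => isClosed_le ?_ continuous_const
    fun_prop
  have hbound : ∀ x ∈ D, ∃ i, ‖e x‖ * (1 + ε i) ≤ 1 := by
    intro x hx
    obtain ⟨G, hG, hGx⟩ := boundary hP (e x)
    rw [hF] at hG
    obtain ⟨i, rfl⟩ := hG
    refine ⟨i, ?_⟩
    have h1 := hx i
    rw [← hGx, abs_of_nonneg (norm_nonneg _), mul_comm] at h1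
    exact h1
  have hlt : ∀ x ∈ D, ‖e x‖ < 1 := by
    intro x hx
    obtain ⟨i, hi⟩ := hbound x hx
    have := hε0 i
    by_contra hcon
    push Not at hcon
    nlinarith
  refine no_such_set hinf D hDcl (by simp [hDdef])
    (R := ‖(e.symm : P →L[ℝ] H)‖) ?_ ?_
  · intro x hx
    have h1 := (e.symm : P →L[ℝ] H).le_opNorm (e x)
    rw [ContinuousLinearEquiv.coe_coe, e.symm_apply_apply] at h1
    exact h1.trans (mul_le_of_le_one_right (norm_nonneg _) (hlt x hx).le)
  · intro x hx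
    set δ := 1 - ‖e x‖ with hδ
    have hδ0 : 0 < δ := by have := hlt x hx; linarith
    obtain ⟨N, hN⟩ := exists_nat_gt (4 / δ)
    -- the functionals with small index
    let a : ℕ → H := fun i => (InnerProductSpace.toDual ℝ H).symm ((F i).comp (e : H →L[ℝ] P))
    have ha : ∀ i y, inner ℝ (a i) y = F i (e y) := by
      intro i y
      simp only [a]
      rw [InnerProductSpace.toDual_symm_apply]
      rfl
    refine ⟨Submodule.span ℝ (a '' (Finset.range N : Set ℕ)),
      FiniteDimensional.span_of_finite ℝ ((Finset.finite_toSet _).image _), ?_⟩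
    set C := ‖(e : H →L[ℝ] P)‖ with hC
    have hC0 : 0 ≤ C := norm_nonneg _
    have heC : ∀ y, ‖e y‖ ≤ C * ‖y‖ := fun y => (e : H →L[ℝ] P).le_opNorm y
    refine ⟨δ / (8 * (C + 1)), by positivity, δ / (4 * (C + 1)), by positivity,
      fun x' hx' hxx v hv hvn i => ?_⟩
    have hFi := abs_le_of_mem_VV (hFV i)
    by_cases hi : i < N
    · have h1 : F i (e v) = 0 := by
        rw [← ha]
        exact (Submodule.mem_orthogonal _ _).1 hv _
          (Submodule.subset_span ⟨i, by simpa using hi, rfl⟩)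
      rw [map_add, map_add, map_smul, map_smul, h1, smul_zero, add_zero]
      exact hx' i
    · push Not at hi
      have h1 : ε i ≤ δ / 4 := by
        simp only [ε]
        rw [inv_le_comm₀ (by positivity) (by positivity), inv_div]
        have : (N : ℝ) ≤ i := by exact_mod_cast hi
        linarith
      have h2 : ‖e x'‖ ≤ ‖e x‖ + δ / 4 := by
        have e1 : e x' = e x + e (x' - x) := by rw [← map_add]; congr 1; abel
        rw [e1]
        refine (norm_add_le _ _).trans (add_le_add le_rfl ((heC _).trans ?_))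
        calc C * ‖x' - x‖ ≤ (C + 1) * (δ / (4 * (C + 1))) :=
              mul_le_mul (by linarith) hxx.le (norm_nonneg _) (by positivity)
          _ = δ / 4 := by field_simp
      have h3 : ‖e ((δ / (8 * (C + 1))) • v)‖ ≤ δ / 8 := by
        refine (heC _).trans ?_
        rw [norm_smul, hvn, mul_one, Real.norm_eq_abs, abs_of_pos (by positivity)]
        calc C * (δ / (8 * (C + 1))) ≤ (C + 1) * (δ / (8 * (C + 1))) :=
              mul_le_mul_of_nonneg_right (by linarith) (by positivity)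
          _ = δ / 8 := by field_simp
      have h4 : |F i (e (x' + (δ / (8 * (C + 1))) • v))| ≤ 1 - δ / 2 := by
        refine (hFi _).trans ?_
        rw [map_add]
        refine (norm_add_le _ _).trans ?_
        linarith
      have hδ1 : δ ≤ 1 := by rw [hδ]; linarith [norm_nonneg (e x)]
      calc (1 + ε i) * |F i (e (x' + (δ / (8 * (C + 1))) • v))| ≤ (1 + δ / 4) * (1 - δ / 2) :=
            mul_le_mul (by linarith) h4 (abs_nonneg _) (by positivity)
        _ ≤ 1 := by nlinarith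

end Q99.SB
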