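import Mathlib
import Pool.Agent.Q99.SB.Ball
import Pool.Agent.Q99.SB.Hil

set_option autoImplicit false

/-!
The Hilbert space as a subspace of strongly norm attaining functionals.
-/

namespace Q99.SB

open Set Topology Filter Pool.Agent.H266R3.LF
open scoped ENNReal

section

variable {H : Type} [NormedAddCommGroup H] [InnerProductSpace ℝ H] [CompleteSpace H]
  [TopologicalSpace.SeparableSpace H]

/-- The restriction of the functional `⟨y, ·⟩` to the set `MM H`. -/
noncomputable def JJ (o : MM H) (y : H) : Lip0 (MM H) o :=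
  Lip0.mk (fun x => inner ℝ y (x : H) - inner ℝ y (o : H)) (sub_self _) ‖y‖ (norm_nonneg y)
    (fun x z => by
      have e : (inner ℝ y (x : H) - inner ℝ y (o : H)) - (inner ℝ y (z : H) - inner ℝ y (o : H)) =
          inner ℝ y ((x : H) - z) := by rw [inner_sub_right]; ring
      rw [e, Subtype.dist_eq, dist_eq_norm]
      exact abs_real_inner_le_norm _ _)

lemma JJ_fn (o : MM H) (y : H) (x : MM H) :
    (JJ o y).fn x = inner ℝ y (x : H) - inner ℝ y (o : H) := rfl

lemma JJ_norm_le (o : MM H) (y : H) : ‖JJ o y‖ ≤ ‖y‖ := by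
  refine Lip0.norm_le' _ (norm_nonneg y) fun x z => ?_
  have e : (JJ o y).fn x - (JJ o y).fn z = inner ℝ y ((x : H) - z) := by
    rw [JJ_fn, JJ_fn, inner_sub_right]; ring
  rw [e, Subtype.dist_eq, dist_eq_norm]
  exact abs_real_inner_le_norm _ _

/-- The norm is attained at a suitable pair. -/
lemma JJ_attains (o : MM H) (y : H) (hy : y ≠ 0) :
    ∃ x z : MM H, x ≠ z ∧ ‖JJ o y‖ = ‖y‖ ∧ |(JJ o y).fn x - (JJ o y).fn z| / dist x z = ‖y‖ := by
  obtain ⟨a, ha, b, hb, hab⟩ := exists_diff y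
  have hy' : 0 < ‖y‖ := norm_pos_iff.2 hy
  have hne : (⟨a, ha⟩ : MM H) ≠ ⟨b, hb⟩ := by
    intro h
    have : a = b := congrArg Subtype.val h
    rw [this, sub_self] at hab
    exact hy hab
  have hd : dist (⟨a, ha⟩ : MM H) ⟨b, hb⟩ = ‖y‖ := by
    rw [Subtype.dist_eq, dist_eq_norm, hab]
  have hv : |(JJ o y).fn ⟨a, ha⟩ - (JJ o y).fn ⟨b, hb⟩| = ‖y‖ * ‖y‖ := by
    have e : (JJ o y).fn ⟨a, ha⟩ - (JJ o y).fn ⟨b, hb⟩ = inner ℝ y (a - b) := by
      rw [JJ_fn, JJ_fn, inner_sub_right]; ring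
    rw [e, ← hab, real_inner_self_eq_norm_mul_norm, abs_of_nonneg (by positivity)]
  have hq : |(JJ o y).fn ⟨a, ha⟩ - (JJ o y).fn ⟨b, hb⟩| / dist (⟨a, ha⟩ : MM H) ⟨b, hb⟩ = ‖y‖ := by
    rw [hv, hd]; field_simp
  refine ⟨⟨a, ha⟩, ⟨b, hb⟩, hne, le_antisymm (JJ_norm_le o y) ?_, hq⟩
  have h1 := (JJ o y).abs_sub_le ⟨a, ha⟩ ⟨b, hb⟩
  rw [hv, hd] at h1
  exact le_of_mul_le_mul_right h1 hy'

lemma JJ_norm (o : MM H) (y : H) : ‖JJ o y‖ = ‖y‖ := by
  by_cases hy : y = 0
  · refine le_antisymm (JJ_norm_le o y) ?_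
    rw [hy, norm_zero]; exact norm_nonneg _
  · obtain ⟨_, _, _, h, _⟩ := JJ_attains o y hy
    exact h

/-- The isometric embedding. -/
noncomputable def JL (o : MM H) : H →ₗᵢ[ℝ] Lip0 (MM H) o where
  toFun := JJ o
  map_add' y z := Lip0.ext fun x => by
    rw [Lip0.fn_add, JJ_fn, JJ_fn, JJ_fn, inner_add_left, inner_add_left]; ring
  map_smul' c y := Lip0.ext fun x => by
    rw [RingHom.id_apply, Lip0.fn_smul, JJ_fn, JJ_fn, real_inner_smul_left, real_inner_smul_left]
    ring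
  norm_map' y := JJ_norm o y

theorem main (hinf : ¬ FiniteDimensional ℝ H) :
    ∃ o : MM H, Nontrivial (MM H) ∧ SmallBall (MM H) ∧
      ∃ Y : Submodule ℝ (Lip0 (MM H) o), IsClosed (Y : Set (Lip0 (MM H) o)) ∧
        (∀ f ∈ Y, AttainsStrongly f) ∧ Nonempty (H ≃ₗᵢ[ℝ] Y) ∧ ¬ IsoPolyhedral Y := by
  obtain ⟨a, ha, _, _, _⟩ := exists_diff (0 : H)
  refine ⟨⟨a, ha⟩, ?_, smallBall_of_cov cov_MM ⟨a, ha⟩, ?_⟩
  · obtain ⟨v, hv⟩ : ∃ v : H, v ≠ 0 := by
      by_contra hcon
      push Not at hcon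
      have : Subsingleton H := ⟨fun x y => by rw [hcon x, hcon y]⟩
      exact hinf inferInstance
    obtain ⟨x, hx, z, hz, hxz⟩ := exists_diff v
    refine ⟨⟨x, hx⟩, ⟨z, hz⟩, fun h => hv ?_⟩
    have : x = z := congrArg Subtype.val h
    rw [hxz, this, sub_self]
  set o : MM H := ⟨a, ha⟩ with ho
  let e : H ≃ₗᵢ[ℝ] LinearMap.range (JL o).toLinearMap := (JL o).equivRange
  refine ⟨LinearMap.range (JL o).toLinearMap, ?_, ?_, ⟨e⟩, ?_⟩
  · have h1 := (JL o).isometry.isClosedEmbedding.isClosed_range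
    exact h1
  · rintro _ ⟨y, rfl⟩
    change AttainsStrongly (JJ o y)
    by_cases hy : y = 0
    · obtain ⟨v, hv⟩ : ∃ v : H, v ≠ 0 := by
        by_contra hcon
        push Not at hcon
        have : Subsingleton H := ⟨fun x y => by rw [hcon x, hcon y]⟩
        exact hinf inferInstance
      obtain ⟨x, z, hxz, _, _⟩ := JJ_attains o v hv
      refine ⟨x, z, hxz, ?_⟩
      rw [JJ_norm, hy, norm_zero, JJ_fn, JJ_fn]
      simp
    · obtain ⟨x, z, hxz, h1, h2⟩ := JJ_attains o y hy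
      exact ⟨x, z, hxz, by rw [h1, h2]⟩
  · rintro ⟨P, i1, i2, hP, ⟨e'⟩⟩
    exact hilbert_not_isoPolyhedral hinf ⟨P, i1, i2, hP, ⟨e.toContinuousLinearEquiv.trans e'⟩⟩

end

/-- `ℓ₂`. -/
abbrev l2 : Type := lp (fun _ : ℕ => ℝ) 2

instance separable_l2 : TopologicalSpace.SeparableSpace l2 := by
  have h1 : TopologicalSpace.IsSeparable
      (closure (Submodule.span ℝ (range fun i : ℕ => (lp.single 2 i (1 : ℝ) : l2)) : Set l2)) :=
    ((Set.countable_range _).isSeparable.span).closure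
  have h2 : closure (Submodule.span ℝ (range fun i : ℕ => (lp.single 2 i (1 : ℝ) : l2)) : Set l2) =
      univ := by
    refine eq_univ_of_forall fun x => ?_
    have h3 := lp.hasSum_single (p := 2) (by norm_num) x
    refine mem_closure_of_tendsto h3 (Filter.Eventually.of_forall fun s => ?_)
    refine Submodule.sum_mem _ fun i _ => ?_
    have e : (lp.single 2 i (x i) : l2) = x i • (lp.single 2 i (1 : ℝ) : l2) := by
      rw [← lp.single_smul, smul_eq_mul, mul_one]
    rw [e]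
    exact Submodule.smul_mem _ _ (Submodule.subset_span ⟨i, rfl⟩)
  rw [h2] at h1
  exact TopologicalSpace.isSeparable_univ_iff.1 h1

lemma l2_infinite : ¬ FiniteDimensional ℝ l2 := by
  intro h
  have hli : LinearIndependent ℝ fun i : ℕ => (lp.single 2 i (1 : ℝ) : l2) := by
    rw [linearIndependent_iff']
    intro s g hg i hi
    have h1 := congrArg (fun x : l2 => x i) hg
    simp only [lp.coeFn_sum, Finset.sum_apply, lp.coeFn_smul, Pi.smul_apply, lp.coeFn_zero,
      Pi.zero_apply] at h1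
    rw [Finset.sum_eq_single i] at h1
    · rw [lp.single_apply_self, smul_eq_mul, mul_one] at h1
      exact h1
    · intro j _ hj
      rw [lp.single_apply_ne _ _ _ (Ne.symm hj), smul_zero]
    · intro h; exact absurd hi h
  exact not_finite_iff_infinite.2 inferInstance hli.finite

end Q99.SB
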